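import Pool.Agent.H608R4.KM.Stm

set_option autoImplicit false

namespace Pool.Agent.TH283.KM

open Finset Pool.Agent.H608R4.KM

theorem ind_true {p : Prop} (h : p) : ind p = 1 := by
  unfold ind; rw [if_pos h]

theorem ind_false {p : Prop} (h : ¬ p) : ind p = 0 := by
  unfold ind; rw [if_neg h]

theorem ind_nonneg (p : Prop) : 0 ≤ ind p := by
  by_cases h : p
  · rw [ind_true h]; norm_num
  · rw [ind_false h]

theorem ind_congr {p q : Prop} (h : p ↔ q) : ind p = ind q := by
  rw [propext h]

theorem adj_symm {n : ℕ} (k : Fin n → ZMod 4) (i j : Fin n) : adj k i j = adj k j i := by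
  unfold adj; rw [add_comm]

theorem z4 (x y : ZMod 4) : (y = x + 2 ↔ x = y + 2) ∧ ((y = x + 1 → ¬ x = y + 1 ∧ ¬ y = x + 2)) ∧
    (x = y + 1 → ¬ y = x + 1 ∧ ¬ y = x + 2) ∧ (¬ x = x + 2) := by
  revert x y; decide

theorem opp_symm {n : ℕ} (k : Fin n → ZMod 4) (i j : Fin n) : opp k i j = opp k j i := by
  unfold opp; exact ind_congr (z4 _ _).1

theorem adj_nonneg {n : ℕ} (k : Fin n → ZMod 4) (i j : Fin n) : 0 ≤ adj k i j :=
  add_nonneg (ind_nonneg _) (ind_nonneg _)

theorem opp_nonneg {n : ℕ} (k : Fin n → ZMod 4) (i j : Fin n) : 0 ≤ opp k i j := ind_nonneg _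

theorem adj_add_opp {n : ℕ} (k : Fin n → ZMod 4) (i j : Fin n) : adj k i j + opp k i j ≤ 1 := by
  unfold adj opp
  obtain ⟨-, h1, h2, -⟩ := z4 (k i) (k j)
  by_cases h : k j = k i + 1
  · obtain ⟨a, b⟩ := h1 h
    rw [ind_true h, ind_false a, ind_false b]; norm_num
  · by_cases h' : k i = k j + 1
    · obtain ⟨a, b⟩ := h2 h'
      rw [ind_true h', ind_false a, ind_false b]; norm_num
    · rw [ind_false h, ind_false h']
      by_cases h'' : k j = k i + 2
      · rw [ind_true h'']; norm_num
      · rw [ind_false h'']; norm_num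

theorem t_M4 (hDB : S_DB) : S_M4 := by
  intro n a k c s hG hN hcs hc0 _ hψ
  obtain ⟨hb1, hb2, hb3, hb4, hb5⟩ := hDB n a hG
  have hn2 : (2 : ℝ) ≤ n := by exact_mod_cast hG.two
  set A : Fin n → ℝ := fun i => ∑ j, opp k i j * a i j with hA
  set Bf : Fin n → ℝ := fun i => ∑ j, adj k i j * b a i j with hB
  have ha0 : ∀ i j, 0 ≤ a i j := by
    intro i j; rcases hG.zo i j with h | h <;> rw [h]; norm_num
  have hb0 : ∀ i j, 0 ≤ b a i j := by
    intro i j; rcases hb3 i j with h | h <;> rw [h]; norm_num
  have hA0 : ∀ i, 0 ≤ A i := fun i => Finset.sum_nonneg (fun j _ => mul_nonneg (opp_nonneg k i j) (ha0 i j))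
  -- the comparison of `B` and `A`
  have hBA : ∀ i, Bf i ≤ (dl + 1 / 1000) * n + A i := by
    intro i
    have h1 : Bf i + ∑ j, opp k i j * b a i j ≤ ∑ j, b a i j := by
      rw [hB]
      simp only
      rw [← Finset.sum_add_distrib]
      apply Finset.sum_le_sum
      intro j _
      have := adj_add_opp k i j
      have := hb0 i j
      nlinarith
    have h2 : ∑ j, opp k i j * b a i j = N k (k i + 2) - A i := by
      rw [hA]
      simp only
      unfold N
      rw [← Finset.sum_sub_distrib]
      apply Finset.sum_congr rfl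
      intro j _
      unfold opp
      by_cases h : k j = k i + 2
      · rw [ind_true h]
        have hij : i ≠ j := by
          rintro rfl
          exact (z4 (k i) (k i)).2.2.2 h
        have := hb4 i j hij
        linarith
      · rw [ind_false h]; ring
    have h3 := abs_le.mp (hN (k i + 2))
    have h4 := hb1 i
    nlinarith [h3.1, h3.2]
  -- the bound for `ψ`
  have hψ2 : ∀ i, 0 ≤ psi c s i ∧ psi c s i ≤ 2 * s i ^ 2 := by
    intro i
    have h1 := hcs i
    have h2 := hc0 i
    have h3 : c i ≤ 1 := by nlinarith [sq_nonneg (s i)]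
    have h4 : 1 - c i ≤ |s i| := by
      by_contra h
      push Not at h
      have h6 := abs_nonneg (s i)
      have h7 : |s i| * |s i| < (1 - c i) * (1 - c i) := by nlinarith
      rw [abs_mul_abs_self] at h7
      nlinarith
    unfold psi
    constructor
    · have := abs_nonneg (s i)
      have h5 : 0 ≤ 1 - c i := by linarith
      positivity
    · have h5 : |s i| * (1 - c i) ≤ |s i| * |s i| := by
        apply mul_le_mul_of_nonneg_left h4 (abs_nonneg _)
      rw [abs_mul_abs_self] at h5
      nlinarith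
  -- symmetrisation
  have e1 : ∑ i, ∑ j, adj k i j * b a i j * (psi c s i + psi c s j) = 2 * ∑ i, psi c s i * Bf i := by
    have h1 : ∑ i, ∑ j, adj k i j * b a i j * psi c s i = ∑ i, psi c s i * Bf i := by
      apply Finset.sum_congr rfl
      intro i _
      rw [hB]; simp only
      rw [Finset.mul_sum]
      apply Finset.sum_congr rfl
      intro j _; ring
    have h2 : ∑ i, ∑ j, adj k i j * b a i j * psi c s j = ∑ i, psi c s i * Bf i := by
      rw [Finset.sum_comm, ← h1]
      apply Finset.sum_congr rfl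
      intro i _
      apply Finset.sum_congr rfl
      intro j _
      rw [adj_symm k j i, hb2 j i]
    have h3 : ∑ i, ∑ j, adj k i j * b a i j * (psi c s i + psi c s j)
        = ∑ i, ∑ j, adj k i j * b a i j * psi c s i + ∑ i, ∑ j, adj k i j * b a i j * psi c s j := by
      rw [← Finset.sum_add_distrib]
      apply Finset.sum_congr rfl
      intro i _
      rw [← Finset.sum_add_distrib]
      apply Finset.sum_congr rfl
      intro j _; ring
    rw [h3, h1, h2]; ring
  have e2 : ∑ i, ∑ j, opp k i j * a i j * (c i + c j) = 2 * ∑ i, c i * A i := by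
    have h1 : ∑ i, ∑ j, opp k i j * a i j * c i = ∑ i, c i * A i := by
      apply Finset.sum_congr rfl
      intro i _
      rw [hA]; simp only
      rw [Finset.mul_sum]
      apply Finset.sum_congr rfl
      intro j _; ring
    have h2 : ∑ i, ∑ j, opp k i j * a i j * c j = ∑ i, c i * A i := by
      rw [Finset.sum_comm, ← h1]
      apply Finset.sum_congr rfl
      intro i _
      apply Finset.sum_congr rfl
      intro j _
      rw [opp_symm k j i, hG.sym j i]
    have h3 : ∑ i, ∑ j, opp k i j * a i j * (c i + c j)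
        = ∑ i, ∑ j, opp k i j * a i j * c i + ∑ i, ∑ j, opp k i j * a i j * c j := by
      rw [← Finset.sum_add_distrib]
      apply Finset.sum_congr rfl
      intro i _
      rw [← Finset.sum_add_distrib]
      apply Finset.sum_congr rfl
      intro j _; ring
    rw [h3, h1, h2]; ring
  simp only [Finset.sum_sub_distrib]
  rw [e1, e2]
  -- termwise
  have h5 : ∑ i, psi c s i * Bf i - ∑ i, c i * A i ≤ ∑ i, 2 * s i ^ 2 * ((dl + 1 / 1000) * n) := by
    rw [← Finset.sum_sub_distrib]
    apply Finset.sum_le_sum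
    intro i _
    obtain ⟨p0, p2⟩ := hψ2 i
    have hd : 0 ≤ (dl + 1 / 1000) * (n : ℝ) := by unfold dl; positivity
    have q1 := mul_le_mul_of_nonneg_left (hBA i) p0
    have q2 := mul_le_mul_of_nonneg_right (hψ i) (hA0 i)
    have q3 := mul_le_mul_of_nonneg_right p2 hd
    linarith
  have h6 : ∑ i, 2 * s i ^ 2 * ((dl + 1 / 1000) * n) = 2 * ((dl + 1 / 1000) * n) * Q s := by
    unfold Q
    rw [Finset.mul_sum]
    apply Finset.sum_congr rfl
    intro i _; ring
  have hQ : 0 ≤ Q s := Finset.sum_nonneg (fun i _ => sq_nonneg _)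
  have hnQ : 0 ≤ (n : ℝ) * Q s := mul_nonneg (by linarith) hQ
  rw [h6] at h5
  have h7 : 4 * (dl + 1 / 1000) * (n * Q s) ≤ n * Q s / 100 := by
    unfold dl
    have : (4 * (1 / 10 ^ 8 + 1 / 1000) : ℝ) ≤ 1 / 100 := by norm_num
    nlinarith
  linarith

end Pool.Agent.TH283.KM

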